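import Mathlib
import Pool.Agent.Helper45.MalcevDefs
import Pool.Agent.Helper45.MalcevNegE

namespace Pool.Agent.Results.MP_e5a626_al.FreeProductNotCoherent

open Pool.Agent.Helper45

/-- There are a free monoid `F` and a Malcev coherent group `M` such that the monoid free
product of `F` and `M`, which embeds in a group, is not Malcev coherent. (The proof takes `F` of
rank one and for `M` the product of the free group of rank three with the infinite cyclic
group.) -/
theorem result :
    ∃ (X : Type) (M : Type) (_ : Group M),
      MalcevCoherent M ∧
      (∃ (G : Type) (_ : Group G) (f : Monoid.Coprod (FreeMonoid X) M →* G),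
        Function.Injective f) ∧
      ¬ MalcevCoherent (Monoid.Coprod (FreeMonoid X) M) :=
  ⟨Unit, FreeGroup (Fin 3) × Multiplicative ℤ, inferInstance, malcevCoherent_MM,
    ⟨_, inferInstance, embG _, embG_injective⟩, not_malcevCoherent_coprod⟩

end Pool.Agent.Results.MP_e5a626_al.FreeProductNotCoherent
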